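import Mathlib

/-!
# QB-N2, local part: the curve `y² = x (x + 9 m) (x - 16 m)` over an unramified extension of `ℚ₂`
-/

set_option autoImplicit false

open WithZero

namespace Pool.Agent.N691.QB

section Loc

variable {L : Type} [Field L] (v : Valuation L ℤᵐ⁰)

theorem int_le (n : ℤ) : v (n : L) ≤ 1 := by
  induction n using Int.induction_on with
  | zero => simp
  | succ i ih =>
    push_cast
    exact (v.map_add _ _).trans (max_le (by exact_mod_cast ih) (by simp))
  | pred i ih =>
    push_cast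
    exact (v.map_sub _ _).trans (max_le (by exact_mod_cast ih) (by simp))

variable {v}

theorem add_le1 {x y : L} (hx : v x ≤ 1) (hy : v y ≤ 1) : v (x + y) ≤ 1 :=
  (v.map_add _ _).trans (max_le hx hy)

theorem mul_le1 {x y : L} (hx : v x ≤ 1) (hy : v y ≤ 1) : v (x * y) ≤ 1 := by
  rw [map_mul]; exact mul_le_one' hx hy

theorem neg_le1 {x : L} (hx : v x ≤ 1) : v (-x) ≤ 1 := by rwa [Valuation.map_neg]

theorem odd_of_two_dvd {b : ℤ} (hb : Squarefree b) (h : (2 : ℤ) ∣ b) : ∃ c : ℤ, b = 2 * c ∧ c % 2 = 1 := by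
  obtain ⟨c, rfl⟩ := h
  refine ⟨c, rfl, ?_⟩
  rcases Int.emod_two_eq_zero_or_one c with h | h
  · exfalso
    obtain ⟨k, hk⟩ : ∃ k, c = 2 * k := ⟨c / 2, by omega⟩
    have := hb 2 ⟨k, by rw [hk]; ring⟩
    rw [Int.isUnit_iff] at this
    omega
  · exact h

variable (h2 : v 2 = exp (-1 : ℤ))

include h2

theorem two_lt : v 2 < 1 := by
  rw [h2, ← exp_zero, exp_lt_exp]; norm_num

theorem two_ne : (2 : L) ≠ 0 := by
  intro h
  rw [h, map_zero] at h2
  exact exp_ne_zero h2.symm

theorem two_mul_lt {x : L} (hx : v x ≤ 1) : v (2 * x) < 1 := by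
  rw [map_mul]
  calc v 2 * v x ≤ v 2 * 1 := by gcongr
    _ < 1 := by rw [mul_one]; exact two_lt h2

theorem unit_add {x z : L} (hx : v x = 1) (hz : v z ≤ 1) : v (x + 2 * z) = 1 := by
  rw [v.map_add_eq_of_lt_left, hx]
  rw [hx]
  exact two_mul_lt h2 hz

theorem one_add {z : L} (hz : v z ≤ 1) : v (1 + 2 * z) = 1 := unit_add h2 (map_one v) hz

theorem one_add4 {z : L} (hz : v z ≤ 1) : v (1 + 4 * z) = 1 := by
  have := one_add h2 (z := 2 * z) (two_mul_lt h2 hz).le
  rwa [← mul_assoc, show (2 : L) * 2 = 4 by norm_num] at this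

theorem odd_int {n : ℤ} (hn : n % 2 = 1) : v (n : L) = 1 := by
  obtain ⟨k, hk⟩ : ∃ k : ℤ, n = 1 + 2 * k := ⟨n / 2, by omega⟩
  rw [hk]
  push_cast
  exact one_add h2 (int_le v k)

theorem half_le {x : L} (h : v x < 1) : v (x / 2) ≤ 1 := by
  by_cases h0 : x = 0
  · simp [h0]
  have hx : v x ≠ 0 := (v.ne_zero_iff).2 h0
  rw [map_div₀, h2]
  rw [← exp_log hx] at h ⊢
  rw [← exp_zero, exp_lt_exp] at h
  rw [← exp_sub, ← exp_zero, exp_le_exp]
  omega

/-- a square of the form `1 + 2 e` -/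
theorem sq_form {s e : L} (he : v e ≤ 1) (h : s ^ 2 = 1 + 2 * e) : v e < 1 := by
  have hs1 : v s ≤ 1 := by
    by_contra hc
    push Not at hc
    have h1 : 1 < v s ^ 2 := one_lt_pow₀ hc (by norm_num)
    rw [← map_pow, h, one_add h2 he] at h1
    exact lt_irrefl _ h1
  have h3 : (s - 1) ^ 2 = 2 * (1 + e - s) := by linear_combination h
  have h4 : v ((s - 1) ^ 2) < 1 := by
    rw [h3]
    apply two_mul_lt h2
    rw [sub_eq_add_neg]
    exact add_le1 (add_le1 (by simp) he) (neg_le1 hs1)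
  have h5 : v (s - 1) < 1 := by
    by_contra hc
    push Not at hc
    rw [map_pow] at h4
    exact absurd h4 (not_lt.2 (one_le_pow₀ hc))
  have h6 := half_le h2 h5
  set g := (s - 1) / 2 with hg
  have h20 := two_ne h2
  have h7 : s = 1 + 2 * g := by rw [hg]; field_simp; ring
  have h8 : e = 2 * (g + g * g) := by
    apply mul_left_cancel₀ h20
    rw [h7] at h
    linear_combination -h
  rw [h8]
  exact two_mul_lt h2 (add_le1 h6 (mul_le1 h6 h6))

/-- parity of an odd multiple -/
theorem log_two_mul {c : ℤ} (hc : c % 2 = 1) : log (v ((2 * c : ℤ) : L)) = -1 := by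
  push_cast
  rw [map_mul, odd_int h2 hc, mul_one, h2, log_exp]

theorem odd_of_even_log {a : ℤ} (ha : Squarefree a) (he : Even (log (v (a : L)))) :
    ¬ (2 : ℤ) ∣ a := by
  intro h
  obtain ⟨c, rfl, hc⟩ := odd_of_two_dvd ha h
  rw [log_two_mul h2 hc] at he
  exact absurd he (by decide)

theorem v_ne {b : ℤ} (hb : Squarefree b) : v (b : L) ≠ 0 := by
  by_cases h : (2 : ℤ) ∣ b
  · obtain ⟨c, rfl, hc⟩ := odd_of_two_dvd hb h
    push_cast
    rw [map_mul, odd_int h2 hc, mul_one, h2]
    exact exp_ne_zero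
  · rw [odd_int h2 (by omega)]
    exact one_ne_zero

theorem b_form {b : ℤ} (hb : Squarefree b) {t z : L} (hz : v z ≤ 1)
    (h : t ^ 2 = b * (1 + 4 * z)) : b % 4 = 1 := by
  have h1 := one_add4 h2 hz
  have hvb := v_ne h2 hb
  have hvt : v t ^ 2 = v (b : L) := by rw [← map_pow, h, map_mul, h1, mul_one]
  have hvt0 : v t ≠ 0 := by
    intro h0
    rw [h0] at hvt
    exact hvb (by rw [← hvt]; simp)
  have h3 : ¬ (2 : ℤ) ∣ b := by
    apply odd_of_even_log h2 hb
    rw [← hvt, log_pow]
    exact ⟨log (v t), by simp [two_mul]⟩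
  have h4 : b % 4 = 1 ∨ b % 4 = 3 := by omega
  rcases h4 with h4 | h4
  · exact h4
  exfalso
  obtain ⟨c, hc⟩ : ∃ c : ℤ, b = 3 + 4 * c := ⟨b / 4, by omega⟩
  have hv4 : v (4 : L) ≤ 1 := by
    have := int_le v 4
    exact_mod_cast this
  have hv3 : v (3 : L) ≤ 1 := by
    have := int_le v 3
    exact_mod_cast this
  have hcl : v ((c : ℤ) : L) ≤ 1 := int_le v c
  have hy : v ((c : L) + 3 * z + 4 * (c * z)) ≤ 1 :=
    add_le1 (add_le1 hcl (mul_le1 hv3 hz)) (mul_le1 hv4 (mul_le1 hcl hz))
  have h5 : t ^ 2 = 1 + 2 * (1 + 2 * ((c : L) + 3 * z + 4 * (c * z))) := by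
    rw [h, hc]
    push_cast
    ring
  have h6 := one_add h2 hy
  have h7 := sq_form h2 h6.le h5
  rw [h6] at h7
  exact lt_irrefl _ h7

/-- the points -/
theorem point {m : ℤ} (hm : m % 4 = 1) {u y : L} (hy : y ≠ 0)
    (h : y ^ 2 = u * (u + 9 * m) * (u - 16 * m)) :
    Even (log (v u)) ∧ ∃ s z : L, v z ≤ 1 ∧ s ≠ 0 ∧ (u + 9 * m) * s ^ 2 = 1 + 4 * z := by
  have h20 := two_ne h2
  have hu : u ≠ 0 := by
    rintro rfl
    apply hy
    have : y ^ 2 = 0 := by rw [h]; ring
    exact pow_eq_zero_iff (by norm_num) |>.1 this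
  have hu9 : u + 9 * (m : L) ≠ 0 := by
    intro h0
    rw [h0] at h
    apply hy
    have : y ^ 2 = 0 := by rw [h]; ring
    exact pow_eq_zero_iff (by norm_num) |>.1 this
  have hu16 : u - 16 * (m : L) ≠ 0 := by
    intro h0
    rw [h0] at h
    apply hy
    have : y ^ 2 = 0 := by rw [h]; ring
    exact pow_eq_zero_iff (by norm_num) |>.1 this
  have hvu : v u ≠ 0 := (v.ne_zero_iff).2 hu
  have hvu9 : v (u + 9 * (m : L)) ≠ 0 := (v.ne_zero_iff).2 hu9
  have hvu16 : v (u - 16 * (m : L)) ≠ 0 := (v.ne_zero_iff).2 hu16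
  have hvy : v y ≠ 0 := (v.ne_zero_iff).2 hy
  have hlog : 2 * log (v y) = log (v u) + log (v (u + 9 * (m : L))) + log (v (u - 16 * (m : L))) := by
    have := congrArg (fun x => log (v x)) h
    simp only [map_pow, map_mul] at this
    rw [log_pow, log_mul (mul_ne_zero hvu hvu9) hvu16, log_mul hvu hvu9] at this
    simpa using this
  have hvm : v (m : L) = 1 := odd_int h2 (by omega)
  have hv9 : v (9 * (m : L)) = 1 := by
    have := odd_int h2 (n := 9 * m) (by omega)
    push_cast at this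
    exact this
  have hv16 : v (16 * (m : L)) = exp (-4 : ℤ) := by
    rw [map_mul, hvm, mul_one, show (16 : L) = 2 ^ 4 by norm_num, map_pow, h2, ← exp_nsmul]
    norm_num
  obtain ⟨l, hl⟩ : ∃ l : ℤ, m = 4 * l + 1 := ⟨m / 4, by omega⟩
  set q := log (v u) with hq
  have hvq : v u = exp q := (exp_log hvu).symm
  have hy' : (y / u) ^ 2 = (u + 9 * m) * (1 - 16 * m / u) := by
    field_simp
    linear_combination h
  have hyu : y / u ≠ 0 := div_ne_zero hy hu
  have hv4 : v (4 : L) = exp (-2 : ℤ) := by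
    rw [show (4 : L) = 2 ^ 2 by norm_num, map_pow, h2, ← exp_nsmul]
    norm_num
  have hv8 : v (8 : L) = exp (-3 : ℤ) := by
    rw [show (8 : L) = 2 ^ 3 by norm_num, map_pow, h2, ← exp_nsmul]
    norm_num
  have hlm : v ((9 : L) * l + 2) ≤ 1 := by
    have := int_le v (9 * l + 2)
    push_cast at this
    exact this
  have hlL : (m : L) = 4 * l + 1 := by rw [hl]; push_cast; ring
  rcases le_or_gt 0 q with hq0 | hq0
  · have hz : v (-(4 * (m : L) / u)) ≤ 1 := by
      rw [Valuation.map_neg, map_div₀, map_mul, hvm, mul_one, hvq, hv4, ← exp_sub, ← exp_zero,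
        exp_le_exp]
      omega
    have hz1 : (y / u) ^ 2 = (u + 9 * m) * (1 + 4 * -(4 * (m : L) / u)) := by
      rw [hy']
      ring
    have hone := one_add4 h2 hz
    have hne : 1 + 4 * -(4 * (m : L) / u) ≠ 0 := by
      intro h0
      rw [h0, map_zero] at hone
      exact zero_ne_one hone
    refine ⟨?_, (1 + 4 * -(4 * (m : L) / u)) / (y / u), _, hz, div_ne_zero hne hyu, ?_⟩
    · rcases hq0.eq_or_lt with h0 | h0
      · rw [← h0]; exact ⟨0, rfl⟩
      · have e1 : v (u + 9 * (m : L)) = v u := by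
          apply Valuation.map_add_eq_of_lt_left
          rw [hv9, hvq, ← exp_zero, exp_lt_exp]
          exact h0
        have e2 : v (u - 16 * (m : L)) = v u := by
          rw [sub_eq_add_neg]
          apply Valuation.map_add_eq_of_lt_left
          rw [Valuation.map_neg, hv16, hvq, exp_lt_exp]
          omega
        rw [e1, e2] at hlog
        exact ⟨log (v y) - q, by omega⟩
    · rw [div_pow, hz1]
      field_simp
  · have e1 : v (u + 9 * (m : L)) = 1 := by
      rw [← hv9]
      apply Valuation.map_add_eq_of_lt_right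
      rw [hv9, hvq, ← exp_zero, exp_lt_exp]
      exact hq0
    rw [e1, log_one, add_zero] at hlog
    have hcase : q = -1 ∨ q = -3 ∨ (q ≤ -2 ∧ q ≠ -3) := by omega
    rcases hcase with h1 | h1 | ⟨h1, h1'⟩
    · exfalso
      have he : v (u / 2) = 1 := by
        rw [map_div₀, hvq, h2, h1, ← exp_sub]
        norm_num
      have hW : v ((9 * l + 2) - (2 * m / (u / 2)) * (u + 9 * m)) ≤ 1 := by
        rw [sub_eq_add_neg]
        apply add_le1 hlm
        rw [Valuation.map_neg, map_mul, e1, mul_one, map_div₀, he, div_one, map_mul, hvm, mul_one]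
        exact (two_lt h2).le
      have hE := unit_add h2 he hW
      have h5 : (y / u) ^ 2 = 1 + 2 * (u / 2 + 2 * ((9 * l + 2) - (2 * m / (u / 2)) * (u + 9 * m))) := by
        rw [hy']
        field_simp
        rw [hlL]
        ring
      have h7 := sq_form h2 hE.le h5
      rw [hE] at h7
      exact lt_irrefl _ h7
    · exfalso
      have h80 : (8 : L) ≠ 0 := by
        rw [show (8 : L) = 2 ^ 3 by norm_num]
        exact pow_ne_zero _ h20
      have he : v (u / 8) = 1 := by
        rw [map_div₀, hvq, hv8, h1, ← exp_sub]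
        norm_num
      have hx : v (-(m / (u / 8) * (u + 9 * m))) = 1 := by
        rw [Valuation.map_neg, map_mul, e1, mul_one, map_div₀, he, div_one, hvm]
      have hW : v (2 * (u / 8) + (9 * l + 2)) ≤ 1 := by
        apply add_le1 _ hlm
        rw [map_mul, he, mul_one]
        exact (two_lt h2).le
      have hE := unit_add h2 hx hW
      have h5 : (y / u) ^ 2 = 1 + 2 * (-(m / (u / 8) * (u + 9 * m)) + 2 * (2 * (u / 8) + (9 * l + 2))) := by
        rw [hy']
        field_simp
        rw [hlL]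
        ring
      have h7 := sq_form h2 hE.le h5
      rw [hE] at h7
      exact lt_irrefl _ h7
    · refine ⟨?_, 1, u / 4 + (9 * l + 2), ?_, one_ne_zero, ?_⟩
      · have h3 : q = -2 ∨ q = -4 ∨ q < -4 := by omega
        rcases h3 with h3 | h3 | h3
        · rw [h3]; exact ⟨-1, rfl⟩
        · rw [h3]; exact ⟨-2, rfl⟩
        · have e2 : v (u - 16 * (m : L)) = exp (-4 : ℤ) := by
            rw [← hv16, ← Valuation.map_neg v (16 * (m : L)), sub_eq_add_neg]
            apply Valuation.map_add_eq_of_lt_right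
            rw [Valuation.map_neg, hv16, hvq, exp_lt_exp]
            exact h3
          rw [e2, log_exp] at hlog
          exact ⟨log (v y) + 2, by omega⟩
      · apply add_le1 _ hlm
        rw [map_div₀, hvq, hv4, ← exp_sub, ← exp_zero, exp_le_exp]
        omega
      · have h40 : (4 : L) ≠ 0 := by
          rw [show (4 : L) = 2 ^ 2 by norm_num]
          exact pow_ne_zero _ h20
        field_simp
        rw [hlL]
        ring

end Loc

end Pool.Agent.N691.QB
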