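import Mathlib

/-!
# QB: the primes which do not divide `d` are unramified in `ℚ(√d)`, `d ≡ 1 mod 4`
(adaptation of `R428/OP/TamK.lean`)
-/

set_option autoImplicit false

open NumberField IsDedekindDomain WithZero

namespace Pool.Agent.N691.QB

variable {K : Type} [Field K] [NumberField K] {d : ℕ} {r : K}

omit [NumberField K] in
/-- an integer which is not divisible by `p` is a unit at the place of `p` -/
theorem not_mem_of_not_dvd {p : ℕ} (hpp : p.Prime) (v : HeightOneSpectrum (𝓞 K))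
    (hv : ((p : ℕ) : 𝓞 K) ∈ v.asIdeal) (m : ℤ) (hm : ¬ (p : ℤ) ∣ m) : (m : 𝓞 K) ∉ v.asIdeal := by
  intro hmem
  obtain ⟨a, b, hab⟩ : IsCoprime (p : ℤ) m :=
    (Prime.irreducible (Nat.prime_iff_prime_int.1 hpp)).coprime_iff_not_dvd.2 hm
  apply v.isPrime.ne_top
  rw [Ideal.eq_top_iff_one]
  have e : (1 : 𝓞 K) = (a : 𝓞 K) * ((p : ℕ) : 𝓞 K) + (b : 𝓞 K) * (m : 𝓞 K) := by
    have := congrArg (fun z : ℤ => (z : 𝓞 K)) hab
    push_cast at this
    exact this.symm
  rw [e]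
  exact add_mem (Ideal.mul_mem_left _ _ hv) (Ideal.mul_mem_left _ _ hmem)

/-- `(1 + √d) / 2` -/
theorem exists_omega (h4 : d % 4 = 1) (hr : r ^ 2 = (d : K)) :
    ∃ ω : 𝓞 K, algebraMap (𝓞 K) K ω = (1 + r) / 2 ∧ ω ^ 2 - ω - ((d / 4 : ℕ) : 𝓞 K) = 0 := by
  obtain ⟨k, hk⟩ : ∃ k : ℕ, d = 4 * k + 1 := ⟨d / 4, by omega⟩
  have e : d / 4 = k := by omega
  have hw : ((1 + r) / 2) ^ 2 - (1 + r) / 2 + ((-k : ℤ) : K) = 0 := by
    have h1 := hr
    rw [hk] at h1
    push_cast at h1 ⊢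
    linear_combination (1 / 4) * h1
  have hi : IsIntegral ℤ ((1 + r) / 2) := by
    refine ⟨Polynomial.X ^ 2 - Polynomial.X + Polynomial.C (-(k : ℤ)), ?_, ?_⟩
    · have : (Polynomial.X ^ 2 - Polynomial.X + Polynomial.C (-(k : ℤ)) : Polynomial ℤ) =
        Polynomial.X ^ 2 + (- Polynomial.X + Polynomial.C (-(k : ℤ))) := by ring
      rw [this]
      apply Polynomial.monic_X_pow_add
      compute_degree!
    · simp only [Polynomial.eval₂_add, Polynomial.eval₂_sub, Polynomial.eval₂_pow,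
        Polynomial.eval₂_X, Polynomial.eval₂_C]
      exact hw
  obtain ⟨ω, hω⟩ := (IsIntegralClosure.isIntegral_iff (R := ℤ) (A := 𝓞 K)).1 hi
  refine ⟨ω, hω, ?_⟩
  rw [e]
  apply FaithfulSMul.algebraMap_injective (𝓞 K) K
  rw [map_sub, map_sub, map_pow, map_natCast, map_zero, hω]
  push_cast at hw
  linear_combination hw

/-- a prime which does not divide `d` is not ramified -/
theorem not_mem_sq (h4 : d % 4 = 1) (hr : r ^ 2 = (d : K)) (hK : ∀ x : K, ∃ a b : ℚ, x = (a : K) + (b : K) * r)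
    {p : ℕ} (hp : p.Prime) (hpD : ¬ p ∣ d)
    (v : HeightOneSpectrum (𝓞 K)) (hv : ((p : ℕ) : 𝓞 K) ∈ v.asIdeal) :
    ((p : ℕ) : 𝓞 K) ∉ v.asIdeal ^ 2 := by
  intro h2
  obtain ⟨ω, hω, hω2⟩ := exists_omega h4 hr
  have hadj : Algebra.adjoin ℚ {algebraMap (𝓞 K) K ω} = ⊤ := by
    rw [eq_top_iff]
    rintro x -
    obtain ⟨a, b, hx⟩ := hK x
    have e : x = algebraMap ℚ K (a - b) + algebraMap ℚ K (2 * b) * algebraMap (𝓞 K) K ω := by
      rw [hω, hx]
      simp only [eq_ratCast]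
      push_cast
      ring
    rw [e]
    exact add_mem (Subalgebra.algebraMap_mem _ _) (mul_mem (Subalgebra.algebraMap_mem _ _)
      (Algebra.subset_adjoin rfl))
  have h3 := aeval_derivative_mem_differentIdeal ℤ ℚ K ω hadj
  have hpp : Prime (p : ℤ) := Nat.prime_iff_prime_int.1 hp
  have hpb : Ideal.span {(p : ℤ)} ≠ ⊥ := by
    rw [Ne, Ideal.span_singleton_eq_bot]
    exact_mod_cast hp.ne_zero
  have hpm : (Ideal.span {(p : ℤ)}).IsMaximal :=
    Ideal.IsPrime.isMaximal ((Ideal.span_singleton_prime hpp.ne_zero).2 hpp) hpb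
  have h4' : v.asIdeal ^ (2 - 1) ∣ differentIdeal ℤ (𝓞 K) := by
    apply pow_sub_one_dvd_differentIdeal ℤ v.asIdeal 2 (p := Ideal.span {(p : ℤ)}) hpb
    rw [Ideal.map_span, Set.image_singleton, Ideal.dvd_span_singleton]
    simpa using h2
  rw [pow_one, Ideal.dvd_iff_le] at h4'
  have h5 := h4' h3
  have hint : IsIntegral ℤ ω := RingOfIntegers.isIntegral ω
  obtain ⟨g, hg⟩ : minpoly ℤ ω ∣
      (Polynomial.X ^ 2 - Polynomial.X - Polynomial.C ((d / 4 : ℕ) : ℤ) : Polynomial ℤ) := by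
    apply minpoly.isIntegrallyClosed_dvd hint
    generalize d / 4 = k at hω2 ⊢
    simpa using hω2
  have h6 := congrArg (fun q => Polynomial.aeval ω (Polynomial.derivative q)) hg
  simp only [Polynomial.derivative_sub, Polynomial.derivative_X_pow, Polynomial.derivative_C,
    sub_zero, Polynomial.derivative_mul, map_add, map_mul, minpoly.aeval, zero_mul, add_zero,
    Polynomial.derivative_X, map_sub, map_one] at h6
  have h7 : 2 * ω - 1 ∈ v.asIdeal := by
    have e : 2 * ω - 1 = Polynomial.aeval ω (Polynomial.derivative (minpoly ℤ ω)) *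
        Polynomial.aeval ω g := by
      rw [← h6, Polynomial.aeval_C, map_pow, Polynomial.aeval_X]
      norm_num
    rw [e]
    exact Ideal.mul_mem_right _ _ h5
  have h8 : ((d : ℤ) : 𝓞 K) ∈ v.asIdeal := by
    have e : ((d : ℤ) : 𝓞 K) = (2 * ω - 1) * (2 * ω - 1) := by
      have : d = 4 * (d / 4) + 1 := by omega
      have e2 : ((d : ℤ) : 𝓞 K) = 4 * ((d / 4 : ℕ) : 𝓞 K) + 1 := by
        have := congrArg (fun z : ℕ => (z : 𝓞 K)) this
        push_cast at this ⊢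
        exact this
      rw [e2]
      linear_combination -4 * hω2
    rw [e]
    exact Ideal.mul_mem_left _ _ h7
  exact not_mem_of_not_dvd hp v hv _ (by exact_mod_cast hpD) h8

theorem val_exp (v : HeightOneSpectrum (𝓞 K)) {p : ℕ}
    (hv : ((p : ℕ) : 𝓞 K) ∈ v.asIdeal) (h2 : ((p : ℕ) : 𝓞 K) ∉ v.asIdeal ^ 2) :
    v.valuation K (p : K) = exp (-1 : ℤ) := by
  have e : algebraMap (𝓞 K) K (p : 𝓞 K) = (p : K) := map_natCast _ p
  rw [← e, HeightOneSpectrum.valuation_of_algebraMap]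
  have h1 : v.intValuation ((p : ℕ) : 𝓞 K) ≤ exp (-(1 : ℕ) : ℤ) := by
    rw [HeightOneSpectrum.intValuation_le_pow_iff_mem, pow_one]
    exact hv
  have h3 : ¬ v.intValuation ((p : ℕ) : 𝓞 K) ≤ exp (-(2 : ℕ) : ℤ) := by
    rw [HeightOneSpectrum.intValuation_le_pow_iff_mem]
    exact h2
  have h0 : v.intValuation ((p : ℕ) : 𝓞 K) ≠ 0 := by
    intro h0
    apply h3
    rw [h0]
    exact zero_le
  generalize v.intValuation ((p : ℕ) : 𝓞 K) = x at h0 h1 h3
  rw [← exp_log h0] at h1 h3 ⊢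
  rw [exp_le_exp] at h1 h3
  congr 1
  push_cast at h1 h3
  omega

theorem valued_int (v : HeightOneSpectrum (𝓞 K)) (n : ℤ) :
    Valued.v ((n : ℤ) : v.adicCompletion K) = v.valuation K (n : K) := by
  have h : ((n : ℤ) : v.adicCompletion K) = algebraMap K (v.adicCompletion K) (n : K) :=
    (map_intCast (algebraMap K (v.adicCompletion K)) n).symm
  rw [h]
  exact HeightOneSpectrum.valuedAdicCompletion_eq_valuation' v _

/-- the valuation of `p` is one -/
theorem valued_p (h4 : d % 4 = 1) (hr : r ^ 2 = (d : K))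
    (hK : ∀ x : K, ∃ a b : ℚ, x = (a : K) + (b : K) * r)
    {p : ℕ} (hp : p.Prime) (hpD : ¬ p ∣ d)
    (v : HeightOneSpectrum (𝓞 K)) (hv : ((p : ℕ) : 𝓞 K) ∈ v.asIdeal) :
    Valued.v ((p : ℤ) : v.adicCompletion K) = exp (-1 : ℤ) := by
  rw [valued_int]
  have := val_exp v hv (not_mem_sq h4 hr hK hp hpD v hv)
  exact_mod_cast this

theorem valued_one (v : HeightOneSpectrum (𝓞 K)) (m : ℤ) (h : (m : 𝓞 K) ∉ v.asIdeal) :
    Valued.v ((m : ℤ) : v.adicCompletion K) = 1 := by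
  rw [valued_int]
  have e : algebraMap (𝓞 K) K ((m : ℤ) : 𝓞 K) = (m : K) := map_intCast _ m
  rw [← e, HeightOneSpectrum.valuation_of_algebraMap]
  exact HeightOneSpectrum.intValuation_eq_one_iff.2 h

end Pool.Agent.N691.QB
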