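import Pool.Agent.N856.QB.Stm
import Pool.Agent.N691.QB.Loc
import Pool.Agent.N691.QB.Unr

/-!
# QB-N2: the necessary condition at the places above `2`
-/

set_option autoImplicit false

open NumberField IsDedekindDomain WithZero

namespace Pool.Agent.N691.QB

open Pool.Agent.N856.QB

theorem t_N2 : S_N2 := by
  intro n d H K _ _ r hQ w h2 a b ha hb hL
  obtain ⟨⟨-, hn⟩, ⟨-, hd12, -⟩, -, -⟩ := H
  obtain ⟨x, y, hy, h, hsa, hsb⟩ := hL
  have hv2 : Valued.v (2 : w.adicCompletion K) = exp (-1 : ℤ) := by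
    have := valued_p (K := K) (d := d) (r := r) (by omega) hQ.hr hQ.hK Nat.prime_two
      (by omega) w (by exact_mod_cast h2)
    exact_mod_cast this
  have hm : (-(n : ℤ)) % 4 = 1 := by omega
  have h' : y ^ 2 = x * (x + 9 * ((-(n : ℤ) : ℤ) : w.adicCompletion K)) *
      (x - 16 * ((-(n : ℤ) : ℤ) : w.adicCompletion K)) := by
    rw [h]
    push_cast
    ring
  obtain ⟨hev, s, z, hz, hs, hsz⟩ := point hv2 hm hy h'
  have hx : x ≠ 0 := by
    rintro rfl
    apply hy
    have : y ^ 2 = 0 := by rw [h']; ring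
    exact pow_eq_zero_iff (by norm_num) |>.1 this
  constructor
  · apply odd_of_even_log hv2 ha
    obtain ⟨c, hc⟩ := hsa
    have hc' : x * (a : w.adicCompletion K) = c * c := by
      rw [← hc]
      push_cast
      ring
    have h3 := congrArg (fun q => log (Valued.v q)) hc'
    have hva : Valued.v (a : w.adicCompletion K) ≠ 0 := v_ne hv2 ha
    have hvx : Valued.v x ≠ (0 : ℤᵐ⁰) := (Valuation.ne_zero_iff _).2 hx
    have hvc : Valued.v c ≠ (0 : ℤᵐ⁰) := by
      intro h0
      have := congrArg (fun q => Valued.v q) hc'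
      simp only [map_mul, h0, mul_zero] at this
      exact mul_ne_zero hvx hva this
    simp only [map_mul] at h3
    rw [log_mul hvx hva, log_mul hvc hvc] at h3
    obtain ⟨e, he⟩ := hev
    exact ⟨log (Valued.v c) - e, by omega⟩
  · obtain ⟨c, hc⟩ := hsb
    have hc' : (x + 9 * ((-(n : ℤ) : ℤ) : w.adicCompletion K)) * (b : w.adicCompletion K) = c * c := by
      rw [← hc]
      push_cast
      ring
    apply b_form hv2 hb (t := s * c) hz
    rw [← hsz]
    linear_combination (-s ^ 2) * hc'

end Pool.Agent.N691.QB
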